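import Pool.Agent.helper16.PU.Spec2

/-!
# Row GTR: the index of a subgroup of `adKer S`, if `S` has an element of order `p`
-/

set_option autoImplicit false

namespace Pool.Agent.PU

open Matrix Polynomial Pool.Agent.GO Pool.Agent.AR Pool.Agent.RG Pool.Agent.HZ Pool.Agent.DS
  Pool.Agent.AX Pool.Agent.UM NumberField

theorem GTR_pow (p : ℕ) [Fact p.Prime] (κ : Type) [Field κ] [CharP κ p] (A : Matrix (Fin 2) (Fin 2) κ)
    (hA : orderOf A = p) (k : ℕ) (c : κ) (h : A ^ k = c • (1 : Matrix (Fin 2) (Fin 2) κ)) : p ∣ k := by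
  have h1 : (A ^ k) ^ p = 1 := by
    rw [← pow_mul, mul_comm, pow_mul, ← hA, pow_orderOf_eq_one, one_pow]
  rw [h, _root_.smul_pow, one_pow] at h1
  have h2 : c ^ p = 1 := by
    have := congrFun (congrFun h1 0) 0
    simpa using this
  have h3 : (c - 1) ^ p = 0 := by
    rw [sub_pow_char, h2, one_pow, sub_self]
  have h4 : c = 1 := sub_eq_zero.1 (pow_eq_zero_iff (Fact.out : p.Prime).ne_zero |>.1 h3)
  rw [h4, one_smul] at h
  rw [← hA]
  exact orderOf_dvd_of_pow_eq_one h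

theorem GTR_aux (p : ℕ) [Fact p.Prime] (Γ κ : Type) [Group Γ] [Field κ] [CharP κ p]
    (S : Γ →* Matrix (Fin 2) (Fin 2) κ) (g : Γ) (hg : orderOf (S g) = p) (K : Subgroup Γ) (hK : K ≤ adKer S)
    (i j : ℕ) (hij : i ≤ j) (hj : j < p) (h : (g ^ i)⁻¹ * g ^ j ∈ K) : i = j := by
  have e : (g ^ i)⁻¹ * g ^ j = g ^ (j - i) := by
    rw [inv_mul_eq_iff_eq_mul, ← pow_add, Nat.add_sub_cancel' hij]
  rw [e] at h
  obtain ⟨c, hc⟩ := hK h
  rw [map_pow] at hc
  have h1 := GTR_pow p κ (S g) hg (j - i) c hc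
  have h2 : j - i = 0 := Nat.eq_zero_of_dvd_of_lt h1 (by omega)
  omega

theorem GTR : GTR_stmt := by
  intro p _ Γ κ _ _ _ S hS K hK hidx
  obtain ⟨g, hg⟩ := hS
  have hfin : Finite (Γ ⧸ K) := by
    have : K.FiniteIndex := ⟨hidx⟩
    infer_instance
  have hinj : Function.Injective (fun k : Fin p => (QuotientGroup.mk (g ^ (k : ℕ)) : Γ ⧸ K)) := by
    intro i j h
    have h1 : (g ^ (i : ℕ))⁻¹ * g ^ (j : ℕ) ∈ K := QuotientGroup.eq.1 h
    have h2 : (g ^ (j : ℕ))⁻¹ * g ^ (i : ℕ) ∈ K := QuotientGroup.eq.1 h.symm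
    rcases le_total (i : ℕ) (j : ℕ) with hle | hle
    · exact Fin.ext (GTR_aux p Γ κ S g hg K hK i j hle j.2 h1)
    · exact Fin.ext (GTR_aux p Γ κ S g hg K hK j i hle i.2 h2).symm
  have := Nat.card_le_card_of_injective _ hinj
  rw [Nat.card_eq_fintype_card, Fintype.card_fin] at this
  exact this

end Pool.Agent.PU
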